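import Pool.Agent.Helper77_PA.Loop

/-!
# Identifiability: algebra
-/

namespace Pool.Agent.Helper41_PA

open Finset Pool.Agent.Helper77_PA

noncomputable section

lemma S_one (h : Hist 0) (l : Fin 0 → Fin 2) (j i : Fin 2) :
    S (snocH h (Fin.last 0)) (snocL l j) i = if j = i then 2 else 0 := by
  rw [S_snoc, snocL_last]
  have : S h l i = 0 := by
    unfold S
    simp
  rw [this]
  split_ifs <;> norm_num

/-- Loop probability of the second node. -/
theorem Ex_loop_one (p : Param 2) : Ex p 1 (fun h l => loopP p h l) =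
    p.prob 0 ^ 2 / 3 + p.prob 1 ^ 2 / 3 + p.prob 0 * p.prob 1 *
      (p.aff 0 0 / (2 * p.aff 0 1 + p.aff 0 0) + p.aff 1 1 / (2 * p.aff 0 1 + p.aff 1 1)) := by
  rw [Ex_succ]
  unfold Ex
  rw [Fintype.sum_unique, Fintype.sum_unique, joint_zero, one_mul]
  unfold step
  have h0 : ∀ j : Fin 2, p.prob j * ((∑ v : Fin (0 + 1), wt p (default : Hist 0) default j v *
      (fun (h : Hist (0 + 1)) (l : Fin (0 + 1) → Fin 2) => loopP p h l)
        (snocH (default : Hist 0) v) (snocL default j)) / norm p (default : Hist 0) default 0 j) =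
      p.prob j * loopP p (snocH (default : Hist 0) (Fin.last 0)) (snocL default j) := by
    intro j
    rw [Fin.sum_univ_castSucc]
    have hn : norm p (default : Hist 0) (default : Fin 0 → Fin 2) 0 j = p.aff j j := by
      unfold Pool.Agent.Helper77_PA.norm
      simp
    rw [hn, wt_last]
    have := (p.aff_pos j j).ne'
    simp only [univ_eq_empty, sum_empty, zero_add]
    field_simp
  refine (Finset.sum_congr rfl (fun j _ => h0 j)).trans ?_
  rw [Fin.sum_univ_two]
  unfold loopP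
  simp only [Fin.sum_univ_two]
  have hn : ∀ j i : Fin 2, norm p (snocH (default : Hist 0) (Fin.last 0)) (snocL default i) 1 j =
      p.aff j 0 * (if i = 0 then 2 else 0) + p.aff j 1 * (if i = 1 then 2 else 0) + p.aff j j := by
    intro j i
    have := norm_eq p (snocH (default : Hist 0) (Fin.last 0)) (snocL default i) j
    rw [S_one, S_one] at this
    exact this
  have i00 : (if (0 : Fin 2) = 0 then (2 : ℝ) else 0) = 2 := by simp
  have i01 : (if (0 : Fin 2) = 1 then (2 : ℝ) else 0) = 0 := by simp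
  have i10 : (if (1 : Fin 2) = 0 then (2 : ℝ) else 0) = 0 := by simp
  have i11 : (if (1 : Fin 2) = 1 then (2 : ℝ) else 0) = 2 := by simp
  have e00 := hn 0 0
  have e01 := hn 0 1
  have e10 := hn 1 0
  have e11 := hn 1 1
  rw [i00, i01] at e00 e10
  rw [i10, i11] at e01 e11
  simp only [zero_add] at *
  rw [e00, e01, e10, e11, p.aff_symm 1 0]
  have a0 := p.aff_pos 0 0
  have a1 := p.aff_pos 1 1
  have b0 := p.aff_pos 0 1
  have m1 : p.aff 0 0 / (p.aff 0 0 * 2 + p.aff 0 1 * 0 + p.aff 0 0) = 1 / 3 := by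
    field_simp
    ring
  have m2 : p.aff 1 1 / (p.aff 0 1 * 0 + p.aff 1 1 * 2 + p.aff 1 1) = 1 / 3 := by
    field_simp
    ring
  rw [m1, m2, mul_zero, mul_zero, add_zero, zero_add, mul_comm (p.aff 0 1) 2]
  ring

/-- Loop probability in the balanced case. -/
def loopVal (x : ℝ) : ℝ :=
  1 / 3 + x * (2 * th / 3 * (3 - th) / (9 * (1 - th) ^ 2 * x + th * (3 - 2 * th)))

lemma th_eq : th = 1 / 1000 := rfl

lemma den_pos' {x : ℝ} (hx : 0 ≤ x) : 0 < 9 * (1 - th) ^ 2 * x + th * (3 - 2 * th) := by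
  rw [th_eq]
  norm_num
  nlinarith

/-- The normal form. -/
structure Std (p : Param 2) (m : ℝ) : Prop where
  hm : 0 < m
  h0 : 0 < p.prob 0
  h1 : 0 < p.prob 1
  hb : p.aff 0 1 = m * (1 - th)
  ha : p.prob 0 * p.aff 0 0 = m * (p.prob 0 + th * p.prob 1)
  hc : p.prob 1 * p.aff 1 1 = m * (p.prob 1 + th * p.prob 0)

lemma Std.Ex_eq {p : Param 2} {m : ℝ} (P : Std p m) :
    Ex p 1 (fun h l => loopP p h l) = loopVal (p.prob 0 * p.prob 1) := by
  rw [Ex_loop_one]
  have hs : p.prob 0 + p.prob 1 = 1 := Bal.prob_add_aux p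
  obtain ⟨hm, h0, h1, hb, ha, hc⟩ := P
  have ha' : p.aff 0 0 = m * ((p.prob 0 + th * p.prob 1) / p.prob 0) := by
    rw [← mul_div_assoc, ← ha]
    field_simp
  have hc' : p.aff 1 1 = m * ((p.prob 1 + th * p.prob 0) / p.prob 1) := by
    rw [← mul_div_assoc, ← hc]
    field_simp
  rw [ha', hb, hc']
  generalize p.prob 0 = a at *
  generalize p.prob 1 = b at *
  have hab : 0 < a * b := mul_pos h0 h1
  have hd := den_pos' hab.le
  have ht : (0 : ℝ) < th := by rw [th_eq]; norm_num
  have ht1 : (0 : ℝ) < 1 - th := by rw [th_eq]; norm_num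
  have e1 : m * ((a + th * b) / a) / (2 * (m * (1 - th)) + m * ((a + th * b) / a)) =
      (a + th * b) / (2 * (1 - th) * a + (a + th * b)) := by
    have n1 : 2 * (1 - th) * a + (a + th * b) ≠ 0 := by positivity
    have n2 : 2 * (m * (1 - th)) + m * ((a + th * b) / a) ≠ 0 := by positivity
    rw [div_eq_div_iff n2 n1]
    field_simp
  have e2 : m * ((b + th * a) / b) / (2 * (m * (1 - th)) + m * ((b + th * a) / b)) =
      (b + th * a) / (2 * (1 - th) * b + (b + th * a)) := by
    have n1 : 2 * (1 - th) * b + (b + th * a) ≠ 0 := by positivity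
    have n2 : 2 * (m * (1 - th)) + m * ((b + th * a) / b) ≠ 0 := by positivity
    rw [div_eq_div_iff n2 n1]
    field_simp
  rw [e1, e2]
  unfold loopVal
  have n1 : 2 * (1 - th) * a + (a + th * b) ≠ 0 := by positivity
  have n3 : 2 * (1 - th) * b + (b + th * a) ≠ 0 := by positivity
  have hD : 9 * (1 - th) ^ 2 * (a * b) + th * (3 - 2 * th) =
      (2 * (1 - th) * a + (a + th * b)) * (2 * (1 - th) * b + (b + th * a)) := by
    have hb' : b = 1 - a := by linarith
    rw [hb']
    ring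
  rw [hD]
  have e3 : (a + th * b) / (2 * (1 - th) * a + (a + th * b)) = 1 / 3 +
      2 * th / 3 / (2 * (1 - th) * a + (a + th * b)) := by
    rw [div_add_div _ _ (by norm_num) n1, div_eq_div_iff n1 (by positivity)]
    have hb' : b = 1 - a := by linarith
    rw [hb']
    ring
  have e4 : (b + th * a) / (2 * (1 - th) * b + (b + th * a)) = 1 / 3 +
      2 * th / 3 / (2 * (1 - th) * b + (b + th * a)) := by
    rw [div_add_div _ _ (by norm_num) n3, div_eq_div_iff n3 (by positivity)]
    have hb' : b = 1 - a := by linarith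
    rw [hb']
    ring
  rw [e3, e4]
  have e5 : 2 * th / 3 / (2 * (1 - th) * a + (a + th * b)) +
      2 * th / 3 / (2 * (1 - th) * b + (b + th * a)) = 2 * th / 3 * (3 - th) /
      ((2 * (1 - th) * a + (a + th * b)) * (2 * (1 - th) * b + (b + th * a))) := by
    rw [div_add_div _ _ n1 n3]
    congr 1
    have hb' : b = 1 - a := by linarith
    rw [hb']
    ring
  rw [← e5]
  have hb' : a ^ 2 + b ^ 2 = 1 - 2 * (a * b) := by
    have : (a + b) ^ 2 = 1 := by rw [hs]; norm_num
    linarith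
  have hb2 : a ^ 2 / 3 + b ^ 2 / 3 = (1 - 2 * (a * b)) / 3 := by
    rw [← hb']
    ring
  rw [hb2]
  ring

lemma loopVal_inj {x y : ℝ} (hx : 0 ≤ x) (hy : 0 ≤ y) (h : loopVal x = loopVal y) : x = y := by
  unfold loopVal at h
  have hdx := den_pos' hx
  have hdy := den_pos' hy
  have h1 : x * (2 * th / 3 * (3 - th) / (9 * (1 - th) ^ 2 * x + th * (3 - 2 * th))) =
      y * (2 * th / 3 * (3 - th) / (9 * (1 - th) ^ 2 * y + th * (3 - 2 * th))) := by linarith
  rw [← mul_div_assoc, ← mul_div_assoc, div_eq_div_iff hdx.ne' hdy.ne', th_eq] at h1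
  norm_num at h1
  linarith

lemma Bal.std {q : Param 2} {s : Fin 2 → ℝ} (B : Bal q s) (hq : ∀ i, 0 < q.prob i) : Std q 1 := by
  have h0 := B.hs0
  have h1 := B.hs1
  have hm := B.mul_eq
  have hs : q.prob 0 + q.prob 1 = 1 := B.prob_add
  refine ⟨one_pos, hq 0, hq 1, ?_, ?_, ?_⟩
  · rw [B.haff]
    linear_combination th * hm
  · rw [B.haff]
    linear_combination th * s 0 * h0 - th * q.prob 1 * hm
  · rw [B.haff]
    linear_combination th * s 1 * h0 - th * q.prob 0 * hm

lemma third_lt {x : ℝ} (hx : 0 < x) : 1 / 3 < loopVal x := by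
  unfold loopVal
  have hd := den_pos' hx.le
  have : 0 < x * (2 * th / 3 * (3 - th) / (9 * (1 - th) ^ 2 * x + th * (3 - 2 * th))) := by
    apply mul_pos hx
    apply div_pos _ hd
    rw [th_eq]
    norm_num
  linarith

/-- F2. -/
theorem prob_pos_of {p q : Param 2} {s : Fin 2 → ℝ} (B : Bal q s) (hq : ∀ i, 0 < q.prob i)
    (hL : Ex p 1 (fun h l => loopP p h l) = Ex q 1 (fun h l => loopP q h l)) :
    ∀ i, 0 < p.prob i := by
  have hs : p.prob 0 + p.prob 1 = 1 := Bal.prob_add_aux p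
  have hQ := (Bal.std B hq).Ex_eq
  have h3 := third_lt (mul_pos (hq 0) (hq 1))
  rw [← hQ, ← hL, Ex_loop_one] at h3
  have key : p.prob 0 ≠ 0 ∧ p.prob 1 ≠ 0 := by
    constructor
    · intro h
      rw [h] at h3 hs
      rw [zero_add] at hs
      rw [hs] at h3
      norm_num at h3
    · intro h
      rw [h] at h3 hs
      rw [add_zero] at hs
      rw [hs] at h3
      norm_num at h3
  intro i
  have h0 := p.prob_nonneg i
  refine lt_of_le_of_ne h0 fun h => ?_
  have : i = 0 ∨ i = 1 := by fin_cases i <;> simp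
  rcases this with hi | hi
  · rw [hi] at h
    exact key.1 h.symm
  · rw [hi] at h
    exact key.2 h.symm

lemma std_of {p : Param 2} (hp : ∀ i, 0 < p.prob i) (hb : IsBal p)
    (hW : (p.prob 0 * p.aff 0 0 + p.prob 1 * p.aff 1 1) /
      (p.prob 0 * p.aff 0 0 + p.prob 1 * p.aff 0 1) = 1 + th) :
    Std p (p.prob 0 * p.aff 0 0 + p.prob 1 * p.aff 0 1) := by
  have hs : p.prob 0 + p.prob 1 = 1 := Bal.prob_add_aux p
  unfold IsBal at hb
  have p0 := hp 0
  have p1 := hp 1
  have a0 := p.aff_pos 0 0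
  have b0 := p.aff_pos 0 1
  have c0 := p.aff_pos 1 1
  have hm : 0 < p.prob 0 * p.aff 0 0 + p.prob 1 * p.aff 0 1 := by positivity
  rw [div_eq_iff hm.ne'] at hW
  have hbb : p.aff 0 1 = (p.prob 0 * p.aff 0 0 + p.prob 1 * p.aff 0 1) * (1 - th) := by
    linear_combination (-1 : ℝ) * hW - hb - p.aff 0 1 * hs
  have hother : p.prob 0 * p.aff 0 1 + p.prob 1 * p.aff 1 1 =
      p.prob 0 * p.aff 0 0 + p.prob 1 * p.aff 0 1 := by
    linear_combination -hb
  refine ⟨hm, p0, p1, hbb, ?_, ?_⟩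
  · generalize hM : p.prob 0 * p.aff 0 0 + p.prob 1 * p.aff 0 1 = M at *
    linear_combination hM - p.prob 1 * hbb - M * hs
  · generalize hM : p.prob 0 * p.aff 0 0 + p.prob 1 * p.aff 0 1 = M at *
    linear_combination hother - p.prob 0 * hbb - M * hs

/-- F3. -/
theorem equivalent_of {p q : Param 2} {s : Fin 2 → ℝ} (B : Bal q s) (hq : ∀ i, 0 < q.prob i)
    (hp : ∀ i, 0 < p.prob i) (hb : IsBal p)
    (hW : (p.prob 0 * p.aff 0 0 + p.prob 1 * p.aff 1 1) /
      (p.prob 0 * p.aff 0 0 + p.prob 1 * p.aff 0 1) = 1 + th)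
    (hL : Ex p 1 (fun h l => loopP p h l) = Ex q 1 (fun h l => loopP q h l)) :
    Equivalent p q := by
  have P := std_of hp hb hW
  have Q := Bal.std B hq
  generalize p.prob 0 * p.aff 0 0 + p.prob 1 * p.aff 0 1 = m at P
  have hs : p.prob 0 + p.prob 1 = 1 := Bal.prob_add_aux p
  have hs' : q.prob 0 + q.prob 1 = 1 := Bal.prob_add_aux q
  rw [P.Ex_eq, Q.Ex_eq] at hL
  have hx := loopVal_inj (mul_pos (hp 0) (hp 1)).le (mul_pos (hq 0) (hq 1)).le hL
  have hcase : p.prob 0 = q.prob 0 ∨ p.prob 0 = q.prob 1 := by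
    have e1 : p.prob 1 = 1 - p.prob 0 := by linarith
    have e2 : q.prob 1 = 1 - q.prob 0 := by linarith
    rw [e1, e2] at hx
    have : (p.prob 0 - q.prob 0) * (p.prob 0 - q.prob 1) = 0 := by
      rw [e2]
      linear_combination -hx
    rcases mul_eq_zero.mp this with h | h
    · left; linarith
    · right; linarith
  obtain ⟨hm, p0, p1, Pb, Pa, Pc⟩ := P
  obtain ⟨-, q0, q1, Qb, Qa, Qc⟩ := Q
  rw [one_mul] at Qb Qa Qc
  rcases hcase with h | h
  · have h' : p.prob 1 = q.prob 1 := by linarith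
    rw [h, h'] at Pa Pc
    have ea : p.aff 0 0 = m * q.aff 0 0 := by
      apply mul_left_cancel₀ q0.ne'
      rw [Pa, ← Qa]
      ring
    have ec : p.aff 1 1 = m * q.aff 1 1 := by
      apply mul_left_cancel₀ q1.ne'
      rw [Pc, ← Qc]
      ring
    have eb : p.aff 0 1 = m * q.aff 0 1 := by
      rw [Pb, Qb]
    refine ⟨1, m, hm, ?_, ?_⟩
    · intro i
      fin_cases i
      · exact h
      · exact h'
    · intro i j
      fin_cases i <;> fin_cases j
      · exact ea
      · exact eb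
      · show p.aff 1 0 = m * q.aff 1 0
        rw [p.aff_symm, q.aff_symm, eb]
      · exact ec
  · have h' : p.prob 1 = q.prob 0 := by linarith
    rw [h, h'] at Pa Pc
    have ea : p.aff 1 1 = m * q.aff 0 0 := by
      apply mul_left_cancel₀ q0.ne'
      rw [Pc, ← Qa]
      ring
    have ec : p.aff 0 0 = m * q.aff 1 1 := by
      apply mul_left_cancel₀ q1.ne'
      rw [Pa, ← Qc]
      ring
    have eb : p.aff 0 1 = m * q.aff 0 1 := by
      rw [Pb, Qb]
    refine ⟨Equiv.swap 0 1, m, hm, ?_, ?_⟩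
    · intro i
      fin_cases i
      · exact h'
      · exact h
    · intro i j
      fin_cases i <;> fin_cases j
      · exact ea
      · show p.aff 1 0 = m * q.aff 0 1
        rw [p.aff_symm, eb]
      · show p.aff 0 1 = m * q.aff 1 0
        rw [q.aff_symm, eb]
      · exact ec

end

end Pool.Agent.Helper41_PA
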