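import Pool.Agent.Helper77_PA.Second

/-!
# No estimator is consistent at both parameters
-/

namespace Pool.Agent.Helper41_PA

open Finset Pool.Agent.Helper77_PA

noncomputable section

/-- Label values, first parameter. -/
def s1 : Fin 2 → ℝ := ![1, -1]

/-- Label values, second parameter. -/
def s2 : Fin 2 → ℝ := ![2, -1 / 2]

/-- First parameter: `prob = (1/2, 1/2)` and `aff i j = 1 + s i * s j / 1000` with `s = (1, -1)`. -/
def q1 : Param 2 where
  prob := ![1 / 2, 1 / 2]
  aff i j := 1 + th * s1 i * s1 j
  prob_nonneg := by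
    intro i
    fin_cases i <;> norm_num
  prob_sum := by
    rw [Fin.sum_univ_two]
    norm_num
  aff_pos := by
    intro i j
    unfold th s1
    fin_cases i <;> fin_cases j <;> norm_num
  aff_symm := by
    intro i j
    ring

/-- Second parameter: `prob = (1/5, 4/5)` and `aff i j = 1 + s i * s j / 1000` with
`s = (2, -1/2)`. -/
def q2 : Param 2 where
  prob := ![1 / 5, 4 / 5]
  aff i j := 1 + th * s2 i * s2 j
  prob_nonneg := by
    intro i
    fin_cases i <;> norm_num
  prob_sum := by
    rw [Fin.sum_univ_two]
    norm_num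
  aff_pos := by
    intro i j
    unfold th s2
    fin_cases i <;> fin_cases j <;> norm_num
  aff_symm := by
    intro i j
    ring

theorem bal1 : Bal q1 s1 where
  haff := fun _ _ => rfl
  hs := by
    intro j
    unfold s1
    fin_cases j <;> norm_num
  hs0 := by
    simp [q1, s1]
  hs1 := by
    simp [q1, s1]
    norm_num
  hk := by
    simp [s1]

theorem bal2 : Bal q2 s2 where
  haff := fun _ _ => rfl
  hs := by
    intro j
    unfold s2
    fin_cases j <;> norm_num [abs_le]
  hs0 := by
    simp [q2, s2]
    norm_num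
  hs1 := by
    simp [q2, s2]
    norm_num
  hk := by
    simp [s2]
    norm_num [abs_le]

/-- No parameter is close to both. -/
theorem not_close (r : (Fin 2 → ℝ) × (Fin 2 → Fin 2 → ℝ)) : ¬ (Close (1 / 20) r q1 ∧ Close (1 / 20) r q2) := by
  rintro ⟨⟨σ, h, -⟩, ⟨τ, h', -⟩⟩
  have h1 := h' 0
  have h2 := h (σ.symm (τ 0))
  rw [Equiv.apply_symm_apply] at h2
  have e1 : q2.prob 0 = 1 / 5 := rfl
  have e2 : ∀ i, q1.prob i = 1 / 2 := by
    intro i
    fin_cases i <;> rfl
  rw [e1] at h1
  rw [e2] at h2
  rw [abs_lt] at h1 h2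
  linarith [h1.2, h2.1]

/-- The law is close to the reference law on every event. -/
theorem sum_ite_le (q : Param 2) {n : ℕ} (hchi : chi q n ≤ 1001 / 1000) (P : Hist n → Prop)
    [DecidablePred P] :
    ∑ h : Hist n, (if P h then law q h else 0) ≤
      ∑ h : Hist n, (if P h then ref h else 0) + 1 / 25 := by
  have key : ∀ h : Hist n, (if P h then law q h else 0) ≤ (if P h then ref h else 0) +
      (16 * (law q h ^ 2 / ref h) - 32 * law q h + (16 + 1 / 64) * ref h) := by
    intro h
    have hr := ref_pos h
    have e : 16 * (law q h ^ 2 / ref h) - 32 * law q h + (16 + 1 / 64) * ref h =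
        (16 * (law q h - ref h) ^ 2 + ref h ^ 2 / 64) / ref h := by
      field_simp
      ring
    have e0 : 0 ≤ (16 * (law q h - ref h) ^ 2 + ref h ^ 2 / 64) / ref h := by positivity
    split_ifs
    · rw [e]
      have : law q h - ref h ≤ (16 * (law q h - ref h) ^ 2 + ref h ^ 2 / 64) / ref h := by
        rw [le_div_iff₀ hr]
        nlinarith [sq_nonneg (32 * (law q h - ref h) - ref h)]
      linarith
    · rw [e]
      linarith
  have hsum := Finset.sum_le_sum (s := (Finset.univ : Finset (Hist n))) (fun h _ => key h)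
  have h1 := sum_law q n
  have h2 := ExR_one n
  unfold ExR at h2
  simp only [mul_one] at h2
  unfold chi at hchi
  have e : ∑ h : Hist n, ((if P h then ref h else 0) +
      (16 * (law q h ^ 2 / ref h) - 32 * law q h + (16 + 1 / 64) * ref h)) =
      ∑ h : Hist n, (if P h then ref h else 0) +
      (16 * ∑ h : Hist n, law q h ^ 2 / ref h - 32 * ∑ h : Hist n, law q h +
        (16 + 1 / 64) * ∑ h : Hist n, ref h) := by
    rw [Finset.sum_add_distrib, Finset.sum_add_distrib, Finset.sum_sub_distrib,
      ← Finset.mul_sum, ← Finset.mul_sum, ← Finset.mul_sum]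
  rw [e, h1, h2] at hsum
  linarith

/-- No estimator is consistent at both parameters. -/
theorem no_consistent (h1 : OneStepStatement) (T : Estimator 2) :
    ¬ (ConsistentAt T q1 ∧ ConsistentAt T q2) := by
  classical
  rintro ⟨c1, c2⟩
  have t := (c1 (1 / 20) (by norm_num)).add (c2 (1 / 20) (by norm_num))
  have hle : ∀ n : ℕ, 1 ≤ n →
      (∑ h : Hist n, if Close (1 / 20) (T n h) q1 then law q1 h else 0) +
      (∑ h : Hist n, if Close (1 / 20) (T n h) q2 then law q2 h else 0) ≤ 27 / 25 := by
    intro n hn
    have a1 := sum_ite_le q1 (chi_le h1 bal1 hn) (fun h => Close (1 / 20) (T n h) q1)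
    have a2 := sum_ite_le q2 (chi_le h1 bal2 hn) (fun h => Close (1 / 20) (T n h) q2)
    have a3 : (∑ h : Hist n, if Close (1 / 20) (T n h) q1 then ref h else 0) +
        (∑ h : Hist n, if Close (1 / 20) (T n h) q2 then ref h else 0) ≤ 1 := by
      have h2 := ExR_one n
      unfold ExR at h2
      simp only [mul_one] at h2
      refine le_trans ?_ h2.le
      rw [← Finset.sum_add_distrib]
      apply Finset.sum_le_sum
      intro h _
      have hr := (ref_pos h).le
      have hn := not_close (T n h)
      split_ifs with p1 p2 p2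
      · exact absurd ⟨p1, p2⟩ hn
      · linarith
      · linarith
      · linarith
    linarith
  have hlim := le_of_tendsto t (Filter.eventually_atTop.mpr ⟨1, fun n hn => by
    refine le_trans (le_of_eq ?_) (hle n hn)
    congr 1⟩)
  norm_num at hlim

end

end Pool.Agent.Helper41_PA
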