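import Pool.Agent.Helper77_PA.OneStepDefs

/-!
# One-step inequality: sums over the label of the new node in one replica
-/

namespace Pool.Agent.Helper41_PA

open Finset Pool.Agent.Helper77_PA

noncomputable section

/-- `∑ pr s² / (1 + th s x)`. -/
def gg (pr s : Fin 2 → ℝ) (x : ℝ) : ℝ := ∑ i, pr i * s i ^ 2 / (1 + th * s i * x)

lemma den_bounds {s x : ℝ} (hs : |s| ≤ 2) (hx : |x| ≤ 2) :
    996 / 1000 ≤ 1 + th * s * x ∧ 1 + th * s * x ≤ 1004 / 1000 := by
  have h : |s * x| ≤ 4 := by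
    rw [abs_mul]
    nlinarith [abs_nonneg s, abs_nonneg x]
  rw [abs_le] at h
  unfold th
  constructor <;> nlinarith [h.1, h.2]

lemma rho_eq {s t x : ℝ} (hs : |s| ≤ 2) (hx : |x| ≤ 2) :
    rho s t x = 1 + th * (t - x) * (s - th * x * (s ^ 2 / (1 + th * s * x))) := by
  have h := (den_bounds hs hx).1
  have h0 : 1 + th * s * x ≠ 0 := by
    intro h'
    linarith
  unfold rho
  field_simp
  ring

lemma rho_nonneg {s t x : ℝ} (hs : |s| ≤ 2) (ht : |t| ≤ 2) (hx : |x| ≤ 2) : 0 ≤ rho s t x := by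
  unfold rho
  exact div_nonneg (by linarith [(den_bounds hs ht).1]) (by linarith [(den_bounds hs hx).1])

section

variable {pr s : Fin 2 → ℝ} (hpr : ∀ j, 0 ≤ pr j) (hpr1 : pr 0 + pr 1 = 1)
  (hs : ∀ j, |s j| ≤ 2) (hs0 : pr 0 * s 0 + pr 1 * s 1 = 0)
  (hs1 : pr 0 * s 0 ^ 2 + pr 1 * s 1 ^ 2 = 1)

include hpr hs hs1 in
lemma gg_bounds {x : ℝ} (hx : |x| ≤ 2) : 99 / 100 ≤ gg pr s x ∧ gg pr s x ≤ 101 / 100 := by
  have key : ∀ i, 99 / 100 * (pr i * s i ^ 2) ≤ pr i * s i ^ 2 / (1 + th * s i * x) ∧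
      pr i * s i ^ 2 / (1 + th * s i * x) ≤ 101 / 100 * (pr i * s i ^ 2) := by
    intro i
    obtain ⟨h1, h2⟩ := den_bounds (hs i) hx
    have h0 : 0 ≤ pr i * s i ^ 2 := mul_nonneg (hpr i) (sq_nonneg _)
    have hp : 0 < 1 + th * s i * x := by linarith
    constructor
    · rw [le_div_iff₀ hp]
      nlinarith
    · rw [div_le_iff₀ hp]
      nlinarith
  unfold gg
  rw [Fin.sum_univ_two]
  constructor <;> linarith [(key 0).1, (key 0).2, (key 1).1, (key 1).2]

include hpr1 hs hs0 in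
lemma sum_rho {t x : ℝ} (hx : |x| ≤ 2) :
    ∑ i, pr i * rho (s i) t x = 1 - th ^ 2 * x * gg pr s x * (t - x) := by
  unfold gg
  rw [Fin.sum_univ_two, Fin.sum_univ_two, rho_eq (hs 0) hx, rho_eq (hs 1) hx]
  linear_combination hpr1 + th * (t - x) * hs0

include hs hs0 in
lemma sum_s_rho {t x : ℝ} (hx : |x| ≤ 2) :
    ∑ i, s i * (pr i * rho (s i) t x) = th * gg pr s x * (t - x) := by
  have key : ∀ i, rho (s i) t x = 1 + th * (t - x) * (s i / (1 + th * s i * x)) := by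
    intro i
    have h := (den_bounds (hs i) hx).1
    have h0 : 1 + th * s i * x ≠ 0 := by
      intro h'
      linarith
    unfold rho
    field_simp
    ring
  unfold gg
  rw [Fin.sum_univ_two, Fin.sum_univ_two, key 0, key 1]
  linear_combination hs0

end

end

end Pool.Agent.Helper41_PA
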